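import Mathlib

namespace Pool.Agent.Results.MP_8e4c55_nt.Binary

open Pointwise

/-- `F` is `p`-local for some `p = r + t + 1`. -/
def IsLocal {D E : Set ℂ} (F : (ℤ → D) → (ℤ → E)) : Prop :=
  ∃ (r t : ℕ) (Φ : (Fin (r + t + 1) → D) → E), ∀ u j, F u j = Φ (fun i => u (j + t - (i : ℕ)))

/-- `F` is a digit set conversion in base `B`. -/
def IsConv (B : ℂ) {D E : Set ℂ} (F : (ℤ → D) → (ℤ → E)) : Prop :=
  ∀ u : ℤ → D, (Function.support (fun j => (u j : ℂ))).Finite →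
    (Function.support (fun j => (F u j : ℂ))).Finite ∧
      ∑ᶠ j, (F u j : ℂ) * B ^ j = ∑ᶠ j, (u j : ℂ) * B ^ j

/-- The block alphabet `A_(k)`. -/
def Blk (β : ℂ) (A : Finset ℤ) (k : ℕ) : Set ℂ :=
  {z | ∃ a : Fin k → ℤ, (∀ i, a i ∈ A) ∧ z = ∑ i, (a i : ℂ) * β ^ (i : ℕ)}

/-- Addition on `A` is `k`-block parallel in base `β`. -/
def BlockParallel (β : ℂ) (A : Finset ℤ) (k : ℕ) : Prop :=
  ∃ F : (ℤ → ↥(Blk β A k + Blk β A k)) → (ℤ → ↥(Blk β A k)), IsConv (β ^ k) F ∧ IsLocal F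

/-! ### The lattice `Z[β]`, `β ^ 3 = β - 1` -/

abbrev V := ℤ × ℤ × ℤ

def T (x : V) : V := (-x.2.2, x.1 + x.2.2, x.2.1)

def valN : ℕ → ℕ → V
  | 0, _ => (0, 0, 0)
  | f + 1, n => (((n % 2 : ℕ) : ℤ), (0 : ℤ), (0 : ℤ)) + T (valN f (n / 2))

def cond (x : V) : Bool :=
  decide (-17470 ≤ 10000 * x.2.1 + 13247 * x.2.2) &&
  decide (10000 * x.2.1 + 13247 * x.2.2 ≤ 40720) &&
  decide (-32820 ≤ 10000 * x.1 - 7549 * x.2.2) &&
  decide (10000 * x.1 - 7549 * x.2.2 ≤ 25270) &&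
  decide (-47950 ≤ 4 * (10000 * x.1 - 7549 * x.2.2) + 3 * (10000 * x.2.1 + 13247 * x.2.2)) &&
  decide (4 * (10000 * x.1 - 7549 * x.2.2) + 3 * (10000 * x.2.1 + 13247 * x.2.2) ≤ 87450)

def pt (c : ℤ) (i j : ℕ) : V := (7549 * c / 10000 - 4 + j, -13247 * c / 10000 - 2 + i, c)

def pts : List V :=
  ((List.range 43).flatMap fun c : ℕ => (List.range 8).flatMap fun i =>
    (List.range 8).map fun j => pt ((c : ℤ) - 28) i j).filter cond

def chk : List V → List ℕ → Bool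
  | [], _ => true
  | _ :: _, [] => false
  | p :: ps, n :: ns => (valN 18 n == p) && chk ps ns

def wits : List ℕ := [
  41120, 41121, 41857, 41128, 41122, 41123, 41859, 41528, 41130, 41131, 41475, 41516,
  41482, 41483, 43036, 41518, 41519, 43038, 43039, 44559, 41136, 35488, 35489, 41923,
  35496, 35490, 35491, 41132, 35498, 35499, 41532, 41134, 41135, 41479, 41534, 41486,
  41487, 35552, 35553, 35504, 35456, 35457, 35512, 35464, 35458, 35459, 35500, 35466,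
  35467, 41150, 35502, 35503, 41502, 41503, 35568, 35520, 35521, 35360, 35361, 35523,
  35368, 35362, 35363, 35516, 35370, 35371, 44092, 35518, 35470, 35471, 44094, 44046,
  44047, 34976, 34977, 35713, 34984, 34978, 34979, 35384, 34986, 34987, 35331, 35372,
  35338, 35339, 41022, 35374, 35375, 35040, 35041, 35777, 34992, 34944, 34945, 35779,
  34952, 34946, 34947, 34988, 34954, 34955, 35388, 34990, 34991, 35390, 35342, 35343,
  33440, 33441, 33448, 33442, 33443, 34856, 33450, 33451, 35004, 34858, 34859, 34951,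
  35006, 34958, 34959, 35358, 35359, 33456, 33408, 33409, 33464, 33416, 33410, 33411,
  33452, 33418, 33419, 34860, 33454, 33455, 47132, 34862, 34863, 33520, 33472, 33473,
  10912, 10913, 33475, 10920, 10914, 10915, 33468, 10922, 10923, 34876, 33470, 33422,
  33423, 34878, 34830, 34831, 10976, 10977, 33665, 10928, 10880, 10881, 10936, 10888,
  10882, 10883, 10924, 10890, 10891, 34844, 10926, 10927, 34846, 34847, 10992, 10944,
  10945, 10784, 10785, 10947, 10792, 10786, 10787, 10940, 10794, 10795, 10942, 10894,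
  10895, 11232, 11233, 10400, 10401, 11137, 10408, 10402, 10403, 10808, 10410, 10411,
  10755, 10796, 10762, 10763, 45118, 10798, 10799, 10464, 10465, 11201, 10416, 10368,
  10369, 11203, 10376, 10370, 10371, 10412, 10378, 10379, 10812, 10414, 10415, 10759,
  10814, 10766, 10767, 8864, 8865, 33219, 8872, 8866, 8867, 10280, 8874, 8875,
  11011, 10428, 10282, 10283, 10375, 10430, 10382, 10383, 8928, 8929, 8880, 8832,
  8833, 8888, 8840, 8834, 8835, 8876, 8842, 8843, 10284, 8878, 8879, 10286,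
  10287, 11023, 8944, 8896, 8897, 8736, 8737, 8899, 8744, 8738, 8739, 8892,
  8746, 8747, 8839, 10300, 8894, 8846, 8847, 10302, 10254, 10255, 8352, 8353,
  9089, 8360, 8354, 8355, 9091, 8760, 8362, 8363, 8707, 8748, 8714, 8715,
  10268, 8750, 8751, 8416, 8417, 9153, 8368, 2720, 2721, 9155, 2728, 2722,
  2723, 8364, 2730, 2731, 8764, 8366, 8367, 8711, 8766, 8718, 8719, 2784,
  2785, 2736, 2688, 2689, 2744, 2696, 2690, 2691, 8380, 2732, 2698, 2699,
  8382, 2734, 2735, 8734, 8735, 2800, 2752, 2753, 2808, 2592, 2593, 2755,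
  2600, 2594, 2595, 2748, 2602, 2603, 11324, 2750, 2702, 2703, 8688, 3040,
  3041, 2208, 2209, 2945, 2216, 2210, 2211, 2616, 2218, 2219, 2563, 8252,
  2604, 2570, 2571, 8254, 2606, 2607, 2272, 2273, 3009, 2224, 2176, 2177,
  3011, 2232, 2184, 2178, 2179, 2220, 2186, 2187, 2620, 2222, 2223, 2622,
  2574, 2575, 2288, 672, 673, 680, 674, 675, 2088, 682, 683, 2236,
  2090, 2091, 2183, 2238, 2190, 2191, 2590, 2591, 736, 737, 688, 640,
  641, 696, 648, 642, 643, 2104, 684, 650, 651, 2092, 686, 687,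
  14364, 2094, 2095, 752, 704, 705, 544, 545, 707, 552, 546, 547,
  700, 554, 555, 2108, 702, 654, 655, 2110, 2062, 2063, 160, 161,
  897, 168, 162, 163, 568, 170, 171, 515, 556, 522, 523, 2076,
  558, 559, 2078, 2079, 224, 225, 961, 176, 128, 129, 963, 136,
  130, 131, 172, 138, 139, 572, 174, 175, 574, 526, 527, 192,
  193, 32, 33, 195, 40, 34, 35, 188, 42, 43, 135, 190,
  142, 143, 12350, 542, 543, 96, 97, 385, 48, 0, 1, 387,
  8, 2, 3, 44, 10, 11, 3132, 46, 47, 3134, 3086, 3087,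
  496, 448, 449, 64, 65, 451, 16, 17, 67, 24, 4, 5,
  60, 12, 6, 7, 62, 14, 15, 352, 353, 1985, 80, 81,
  257, 88, 68, 69, 259, 20, 21, 71, 28, 22, 23, 30,
  31, 368, 320, 321, 272, 273, 323, 84, 85, 261, 92, 86,
  87, 6204, 94, 95, 271, 6206, 1566, 1567, 1504, 1505, 336, 337,
  1409, 344, 324, 325, 380, 276, 277, 327, 284, 278, 279, 6172,
  286, 287, 1520, 1472, 1473, 1136, 1088, 1089, 1475, 340, 341, 1091,
  348, 342, 343, 1084, 350, 351, 1086, 1038, 1039, 1376, 1377, 98755,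
  1104, 1105, 1281, 1112, 1092, 1093, 1283, 1148, 1044, 1045, 1095, 1052,
  1046, 1047, 1054, 1055, 4576, 4577, 1392, 1344, 1345, 1400, 1296, 1297,
  1347, 1108, 1109, 1285, 1116, 1110, 1111, 1118, 1119, 1295, 4592, 4544,
  4545, 1360, 1361, 4547, 1368, 1348, 1349, 1404, 1300, 1301, 1351, 4156,
  1308, 1302, 1303, 4158, 1310, 1311, 4448, 4449, 6081, 4176, 4177, 4353,
  6083, 4184, 1364, 1365, 4355, 1372, 1366, 1367, 4124, 1374, 1375, 4126,
  4127, 5647, 4464, 4416, 4417, 17347, 4368, 4369, 4419, 4180, 4181, 4357,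
  4188, 4182, 4183, 4359, 4190, 4191, 4367, 5600, 5601, 4432, 4433, 5505,
  4440, 4420, 4421, 5507, 4476, 4372, 4373, 4423, 4380, 4374, 4375, 4382,
  4383, 5616, 5568, 5569, 5232, 5184, 5185, 5571, 4436, 4437, 5187, 4444,
  4438, 4439, 5180, 4446, 4447, 5127, 5182, 5134, 5135, 5472, 5473, 16835,
  5200, 5201, 5377, 5208, 5188, 5189, 5379, 5244, 5140, 5141, 5191, 5148,
  5142, 5143, 16736, 16737, 18369, 5488, 5440, 5441, 18371, 5496, 5392, 5393,
  5443, 5204, 5205, 5381, 5212, 5206, 5207, 5214, 5215, 5391]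

lemma chk_ok : chk pts wits = true := by decide +kernel

lemma chk_sound : ∀ (ps : List V) (ns : List ℕ), chk ps ns = true → ∀ p ∈ ps, ∃ n, valN 18 n = p
  | [], _, _, p, hp => by simp at hp
  | _ :: _, [], h, _, _ => by simp [chk] at h
  | q :: ps, n :: ns, h, p, hp => by
    simp only [chk, Bool.and_eq_true, beq_iff_eq] at h
    rcases List.mem_cons.1 hp with rfl | hp
    · exact ⟨n, h.1⟩
    · exact chk_sound ps ns h.2 p hp

lemma finite_check (x : V) (h1 : -28 ≤ x.2.2) (h2 : x.2.2 ≤ 14) (h : cond x = true) :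
    ∃ n, valN 18 n = x := by
  apply chk_sound pts wits chk_ok
  obtain ⟨a, b, c⟩ := x
  refine List.mem_filter.2 ⟨?_, h⟩
  simp only [cond, Bool.and_eq_true, decide_eq_true_eq] at h h1 h2
  simp only [List.mem_flatMap, List.mem_map, List.mem_range]
  obtain ⟨⟨⟨⟨⟨k1, k2⟩, k3⟩, k4⟩, -⟩, -⟩ := h
  have m1 : 0 ≤ b - (-13247 * c / 10000 - 2) ∧ b - (-13247 * c / 10000 - 2) < 8 := by
    clear k3 k4 h1 h2
    generalize hd : -13247 * c = d
    have : 13247 * c = -d := by omega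
    rw [this] at k1 k2
    clear hd this
    omega
  have m2 : 0 ≤ a - (7549 * c / 10000 - 4) ∧ a - (7549 * c / 10000 - 4) < 8 := by
    clear k1 k2 h1 h2 m1
    generalize 7549 * c = d at *
    omega
  clear k1 k2 k3 k4
  have m3 : ∀ (d : ℤ) (n : ℕ), 0 < n → d < n → d.toNat < n := by intro d n h1 h2; omega
  refine ⟨(c + 28).toNat, m3 _ _ (by norm_num) (by push_cast; linarith),
    (b - (-13247 * c / 10000 - 2)).toNat, m3 _ _ (by norm_num) (by exact_mod_cast m1.2),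
    (a - (7549 * c / 10000 - 4)).toNat, m3 _ _ (by norm_num) (by exact_mod_cast m2.2), ?_⟩
  have e : (((c + 28).toNat : ℕ) : ℤ) - 28 = c := by clear m1 m2; omega
  rw [e]
  simp only [pt, Prod.mk.injEq, and_true, Int.toNat_of_nonneg m1.1, Int.toNat_of_nonneg m2.1]
  constructor <;> ring

structure Par where
  β : ℝ
  σ : ℂ
  h3 : β ^ 3 = β - 1
  lo : -1.32472 ≤ β
  hi : β ≤ -1.32471
  hσ : σ ^ 2 = -β * σ - (β ^ 2 - 1)
  re : σ.re = -β / 2
  im : 0.5622 ≤ σ.im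
  nm : ‖σ‖ ≤ 0.869

lemma exPar : Nonempty Par := by
  obtain ⟨β, ⟨h1, h2⟩, h3⟩ : ∃ β ∈ Set.Icc (-1.32472 : ℝ) (-1.32471), β ^ 3 - β + 1 = 0 := by
    have := intermediate_value_Icc (a := (-1.32472 : ℝ)) (b := -1.32471)
      (f := fun x : ℝ => x ^ 3 - x + 1) (by norm_num) (by fun_prop)
    exact this ⟨by norm_num, by norm_num⟩
  have hp : (1.2644 : ℝ) ≤ 3 * β ^ 2 - 4 := by nlinarith
  have hs := Real.sq_sqrt (show (0 : ℝ) ≤ 3 * β ^ 2 - 4 by linarith)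
  have hs2 : (1.1244 : ℝ) ≤ √(3 * β ^ 2 - 4) := Real.le_sqrt_of_sq_le (by linarith)
  generalize √(3 * β ^ 2 - 4) = s at hs hs2
  refine ⟨⟨β, ⟨-β / 2, s / 2⟩, by linarith, h1, h2, ?_, rfl, by simp only; linarith, ?_⟩⟩
  · apply Complex.ext
    · simp [pow_two]; nlinarith
    · simp [pow_two]; ring
  · rw [Complex.norm_eq_sqrt_sq_add_sq]
    apply Real.sqrt_le_iff.2
    refine ⟨by norm_num, ?_⟩
    simp only
    nlinarith

namespace Par

variable (p : Par)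

noncomputable def φ (x : V) : ℝ := x.1 + x.2.1 * p.β + x.2.2 * p.β ^ 2
noncomputable def ψ (x : V) : ℂ := x.1 + x.2.1 * p.σ + x.2.2 * p.σ ^ 2

lemma φ_add (x y : V) : p.φ (x + y) = p.φ x + p.φ y := by simp [φ]; ring
lemma φ_sub (x y : V) : p.φ (x - y) = p.φ x - p.φ y := by simp [φ]; ring
lemma ψ_add (x y : V) : p.ψ (x + y) = p.ψ x + p.ψ y := by simp [ψ]; ring
lemma ψ_sub (x y : V) : p.ψ (x - y) = p.ψ x - p.ψ y := by simp [ψ]; ring

lemma φ_T (x : V) : p.φ (T x) = p.β * p.φ x := by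
  simp only [φ, T]; push_cast; linear_combination (-(x.2.2 : ℝ)) * p.h3

lemma ψ_T (x : V) : p.ψ (T x) = p.σ * p.ψ x := by
  have h : (p.β : ℂ) ^ 3 = p.β - 1 := by exact_mod_cast p.h3
  simp only [ψ, T]; push_cast
  linear_combination (-(x.2.2 : ℂ)) * (p.σ - p.β) * p.hσ - (x.2.2 : ℂ) * h

lemma φ_Tk (k : ℕ) (x : V) : p.φ (T^[k] x) = p.β ^ k * p.φ x := by
  induction k with
  | zero => simp
  | succ k ih => rw [Function.iterate_succ_apply', φ_T, ih]; ring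

lemma ψ_Tk (k : ℕ) (x : V) : p.ψ (T^[k] x) = p.σ ^ k * p.ψ x := by
  induction k with
  | zero => simp
  | succ k ih => rw [Function.iterate_succ_apply', ψ_T, ih]; ring

def RD (j : ℕ) (t : ℝ) : Prop :=
  ∃ a : ℕ → ℤ, (∀ i, a i = 0 ∨ a i = 1) ∧ t = ∑ i ∈ Finset.range j, (a i : ℝ) * p.β ^ i

lemma RD_low {j : ℕ} {t : ℝ} (h : p.RD j t) (d : ℤ) (hd : d = 0 ∨ d = 1) :
    p.RD (j + 1) (d + p.β * t) := by
  obtain ⟨a, ha, rfl⟩ := h
  refine ⟨fun i => Nat.casesOn i d a, fun i => by cases i <;> simp [hd, ha], ?_⟩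
  rw [Finset.sum_range_succ', Finset.mul_sum]
  simp only [pow_zero, mul_one, Nat.rec_zero]
  rw [add_comm]
  congr 1
  exact Finset.sum_congr rfl (fun i _ => by ring)

lemma RD_high {j : ℕ} {t : ℝ} (h : p.RD j t) (d : ℤ) (hd : d = 0 ∨ d = 1) :
    p.RD (j + 1) (t + d * p.β ^ j) := by
  obtain ⟨a, ha, rfl⟩ := h
  refine ⟨fun i => if i = j then d else a i, fun i => by dsimp only; split_ifs <;> simp [hd, ha],
    ?_⟩
  rw [Finset.sum_range_succ]
  simp only [if_true]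
  congr 1
  exact Finset.sum_congr rfl (fun i hi => by rw [if_neg (Finset.mem_range.1 hi).ne])

lemma RD_valN : ∀ f n : ℕ, p.RD f (p.φ (valN f n))
  | 0, _ => ⟨fun _ => 0, by simp, by simp [φ, valN]⟩
  | f + 1, n => by
    have := p.RD_low (RD_valN f (n / 2)) ((n % 2 : ℕ) : ℤ) (by omega)
    rw [valN, φ_add, φ_T]
    simpa [φ] using this

def Near (x : V) (ε : ℝ) : Prop :=
  ∃ l1 l2 l3 : ℝ, 0 ≤ l1 ∧ l1 ≤ 1 ∧ -1 / 2 ≤ l2 ∧ l2 ≤ 1 / 2 ∧ -1 ≤ l3 ∧ l3 ≤ 0 ∧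
    ‖p.ψ x - (l1 + l2 * p.σ + l3 * (1 - p.σ - p.σ ^ 2))‖ ≤ ε

lemma pb {x y a b : ℝ} (h1 : -a ≤ x) (h2 : x ≤ a) (h3 : -b ≤ y) (h4 : y ≤ b) :
    -(a * b) ≤ x * y ∧ x * y ≤ a * b := by
  rw [← abs_le, abs_mul]
  exact mul_le_mul (abs_le.2 ⟨h1, h2⟩) (abs_le.2 ⟨h3, h4⟩) (abs_nonneg _) (by linarith)

lemma base (x : V) (h1 : -0.72 ≤ p.φ x / p.β ^ 18) (h2 : p.φ x / p.β ^ 18 ≤ 0.3)
    (h : p.Near x 0.7) : p.RD 18 (p.φ x) := by
  obtain ⟨a, b, c⟩ := x
  obtain ⟨l1, l2, l3, a1, a2, a3, a4, a5, a6, hn⟩ := h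
  have lo := p.lo
  have hi := p.hi
  have him := p.im
  have s1 : 1.75485 ≤ p.β ^ 2 := by nlinarith
  have s2 : p.β ^ 2 ≤ 1.75489 := by nlinarith
  have b1 : 0 < p.β ^ 18 := by
    rw [show p.β ^ 18 = (p.β ^ 2) ^ 9 by ring]; positivity
  have b2 : p.β ^ 18 ≤ 158 := by
    rw [show p.β ^ 18 = (p.β ^ 2) ^ 9 by ring]
    exact (pow_le_pow_left₀ (by positivity) s2 9).trans (by norm_num)
  rw [le_div_iff₀ b1] at h1
  rw [div_le_iff₀ b1] at h2
  set P : ℝ := a - c * (p.β ^ 2 - 1) with hP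
  set Q : ℝ := b - c * p.β with hQ
  set u : ℝ := P - l1 - l3 * p.β ^ 2 with hu
  set v : ℝ := Q - l2 - l3 * (p.β - 1) with hv
  have e : p.ψ (a, b, c) - (l1 + l2 * p.σ + l3 * (1 - p.σ - p.σ ^ 2)) = u + v * p.σ := by
    simp only [ψ, hu, hv, hP, hQ]
    push_cast
    linear_combination ((c : ℂ) + l3) * p.hσ
  rw [e] at hn
  have r1 := (Complex.abs_re_le_norm _).trans hn
  have r2 := (Complex.abs_im_le_norm _).trans hn
  simp only [Complex.add_re, Complex.ofReal_re, Complex.mul_re, Complex.ofReal_im, zero_mul,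
    sub_zero, Complex.add_im, Complex.mul_im, add_zero, zero_add, p.re] at r1 r2
  obtain ⟨r3, r1'⟩ := abs_le.1 r1
  obtain ⟨r4, r2'⟩ := abs_le.1 r2
  have eφ : p.φ (a, b, c) = P + Q * p.β + c * (3 * p.β ^ 2 - 1) := by
    simp only [φ, hP, hQ]; ring
  clear_value P Q u v
  clear r1 r2 hn e
  have v1 : -1.246 ≤ v := by
    by_contra hc
    push Not at hc
    have := mul_le_mul_of_nonneg_left him (show 0 ≤ -v by linarith)
    linarith
  have v2 : v ≤ 1.246 := by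
    by_contra hc
    push Not at hc
    have := mul_le_mul_of_nonneg_left him (show 0 ≤ v by linarith)
    linarith
  obtain ⟨w1, w2⟩ := pb (a := 2) (b := 0.00001) (x := v) (y := p.β + 1.32471)
    (by linarith) (by linarith) (by linarith) (by linarith)
  obtain ⟨w3, w4⟩ := pb (a := 1) (b := 0.00001) (x := l3) (y := p.β + 1.32471)
    (by linarith) (by linarith) (by linarith) (by linarith)
  obtain ⟨w5, w6⟩ := pb (a := 1) (b := 0.00004) (x := l3) (y := p.β ^ 2 - 1.75485)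
    (by linarith) (by linarith) (by linarith) (by linarith)
  have Q1 : -1.7461 ≤ Q := by linarith
  have Q2 : Q ≤ 4.071 := by linarith
  have P1 : -3.281 ≤ P := by linarith
  have P2 : P ≤ 2.526 := by linarith
  have S1 : -4.79 ≤ 4 * P + 3 * Q := by linarith
  have S2 : 4 * P + 3 * Q ≤ 8.74 := by linarith
  obtain ⟨q1, q2⟩ := pb (a := 5) (b := 0.00001) (x := Q) (y := p.β + 1.32471)
    (by linarith) (by linarith) (by linarith) (by linarith)
  have c1 : (-28 : ℝ) ≤ c := by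
    by_contra hc
    push Not at hc
    have := mul_le_mul_of_nonneg_left s1 (show (0 : ℝ) ≤ -c by linarith)
    linarith
  have c2 : (c : ℝ) ≤ 14 := by
    by_contra hc
    push Not at hc
    have := mul_le_mul_of_nonneg_left s1 (show (0 : ℝ) ≤ c by linarith)
    linarith
  obtain ⟨z1, z2⟩ := pb (a := 28) (b := 0.00001) (x := (c : ℝ)) (y := p.β + 1.32471)
    (by linarith) (by linarith) (by linarith) (by linarith)
  obtain ⟨z3, z4⟩ := pb (a := 28) (b := 0.00002) (x := (c : ℝ)) (y := p.β ^ 2 - 1.75487)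
    (by linarith) (by linarith) (by linarith) (by linarith)
  have i1 : (-17470 : ℝ) ≤ 10000 * b + 13247 * c := by linarith
  have i2 : 10000 * b + 13247 * c ≤ (40720 : ℝ) := by linarith
  have i3 : (-32820 : ℝ) ≤ 10000 * a - 7549 * c := by linarith
  have i4 : 10000 * a - 7549 * c ≤ (25270 : ℝ) := by linarith
  have i5 : (-47950 : ℝ) ≤ 4 * (10000 * a - 7549 * c) + 3 * (10000 * b + 13247 * c) := by
    linarith
  have i6 : 4 * (10000 * a - 7549 * c) + 3 * (10000 * b + 13247 * c) ≤ (87450 : ℝ) := by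
    linarith
  obtain ⟨n, hn⟩ := finite_check (a, b, c) (by exact_mod_cast c1) (by exact_mod_cast c2) (by
    simp only [cond, Bool.and_eq_true, decide_eq_true_eq]
    refine ⟨⟨⟨⟨⟨?_, ?_⟩, ?_⟩, ?_⟩, ?_⟩, ?_⟩
    · exact_mod_cast i1
    · exact_mod_cast i2
    · exact_mod_cast i3
    · exact_mod_cast i4
    · exact_mod_cast i5
    · exact_mod_cast i6)
  rw [← hn]
  exact p.RD_valN 18 n

lemma β_ne : p.β ≠ 0 := by have := p.hi; intro h; rw [h] at this; norm_num at this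

lemma up : ∀ (n : ℕ) (x : V), -(1.7 - 0.98 * 0.8 ^ n) ≤ p.φ x / p.β ^ (18 + n) →
    p.φ x / p.β ^ (18 + n) ≤ 1.28 - 0.98 * 0.8 ^ n →
    p.Near x (0.7 - 8 * 0.869 ^ 18 + 8 * 0.869 ^ (18 + n)) → p.RD (18 + n) (p.φ x)
  | 0, x, h1, h2, h => p.base x (by norm_num at h1 ⊢; exact h1) (by norm_num at h2 ⊢; exact h2)
      (by simpa using h)
  | n + 1, x, h1, h2, h => by
    have lo := p.lo
    have hi := p.hi
    have hb := p.β_ne
    have g0 : (0 : ℝ) < 0.8 ^ n := by positivity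
    have g1 : (0.8 : ℝ) ^ n ≤ 1 := pow_le_one₀ (by norm_num) (by norm_num)
    rw [pow_succ] at h1 h2
    set t := p.φ x / p.β ^ (18 + (n + 1)) with ht
    set g : ℝ := 0.8 ^ n
    have t1 : -(1.7 - 0.98 * g) ≤ p.β * t := by nlinarith
    have t2 : p.β * t ≤ 2.28 - 0.98 * g := by nlinarith
    obtain ⟨d, hd, d1, d2⟩ : ∃ d : ℤ, (d = 0 ∨ d = 1) ∧ -(1.7 - 0.98 * g) ≤ p.β * t - d ∧
        p.β * t - d ≤ 1.28 - 0.98 * g := by
      by_cases hc : p.β * t ≤ 1.28 - 0.98 * g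
      · exact ⟨0, Or.inl rfl, by simpa using t1, by simpa using hc⟩
      · exact ⟨1, Or.inr rfl, by push_cast; linarith, by push_cast; linarith⟩
    have e1 : p.φ (x - T^[18 + n] (d, 0, 0)) = p.φ x - d * p.β ^ (18 + n) := by
      rw [φ_sub, φ_Tk]; simp [φ]; ring
    have e2 : (p.φ x - d * p.β ^ (18 + n)) / p.β ^ (18 + n) = p.β * t - d := by
      rw [ht, show 18 + (n + 1) = 18 + n + 1 by ring, pow_succ]; field_simp
    have key := up n (x - T^[18 + n] (d, 0, 0)) (by rw [e1, e2]; exact d1)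
      (by rw [e1, e2]; exact d2) (by
        obtain ⟨l1, l2, l3, a1, a2, a3, a4, a5, a6, hn⟩ := h
        refine ⟨l1, l2, l3, a1, a2, a3, a4, a5, a6, ?_⟩
        have e3 : p.ψ (x - T^[18 + n] (d, 0, 0)) - (l1 + l2 * p.σ + l3 * (1 - p.σ - p.σ ^ 2)) =
            p.ψ x - (l1 + l2 * p.σ + l3 * (1 - p.σ - p.σ ^ 2)) - p.σ ^ (18 + n) * d := by
          rw [ψ_sub, ψ_Tk]; simp [ψ]; ring
        have e4 : ‖p.σ ^ (18 + n) * d‖ ≤ 0.869 ^ (18 + n) := by
          have := pow_le_pow_left₀ (norm_nonneg _) p.nm (18 + n)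
          rcases hd with rfl | rfl
          · simp; positivity
          · simpa using this
        rw [e3]
        refine (norm_sub_le _ _).trans ?_
        have g2 : (0 : ℝ) < 0.869 ^ (18 + n) := by positivity
        rw [show 18 + (n + 1) = 18 + n + 1 by ring, pow_succ (0.869 : ℝ) (18 + n)] at hn
        linarith)
    have := p.RD_high key d hd
    rw [e1, sub_add_cancel] at this
    exact this

lemma lift (a : ℕ → ℤ) (ha : ∀ i, a i = 0 ∨ a i = 1) (j : ℕ) : ∃ x : V,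
    p.φ x = ∑ i ∈ Finset.range j, (a i : ℝ) * p.β ^ i ∧ |p.φ x| ≤ 4 * |p.β| ^ j ∧
      ‖p.ψ x‖ ≤ 8 - 8 * 0.869 ^ j := by
  induction j with
  | zero => exact ⟨0, by simp [φ], by simp [φ], by simp [ψ]⟩
  | succ j ih =>
    obtain ⟨x, h1, h2, h3⟩ := ih
    have e1 : p.φ (x + T^[j] (a j, 0, 0)) = p.φ x + a j * p.β ^ j := by
      rw [φ_add, φ_Tk]; simp [φ]; ring
    have e2 : p.ψ (x + T^[j] (a j, 0, 0)) = p.ψ x + p.σ ^ j * a j := by
      rw [ψ_add, ψ_Tk]; simp [ψ]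
    refine ⟨x + T^[j] (a j, 0, 0), by rw [e1, h1, Finset.sum_range_succ], ?_, ?_⟩
    · have b1 : 1.3 ≤ |p.β| := by
        have := p.hi
        rw [abs_of_neg (by linarith)]; linarith
      have b2 : |(a j : ℝ) * p.β ^ j| ≤ |p.β| ^ j := by
        rcases ha j with h | h <;> simp [h]
      have b3 : 0 < |p.β| ^ j := by positivity
      rw [e1, pow_succ]
      refine (abs_add_le _ _).trans ?_
      nlinarith
    · have e4 : ‖p.σ ^ j * a j‖ ≤ 0.869 ^ j := by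
        have := pow_le_pow_left₀ (norm_nonneg _) p.nm j
        rcases ha j with h | h
        · simp [h]; positivity
        · simpa [h] using this
      have g2 : (0 : ℝ) < 0.869 ^ j := by positivity
      rw [e2, pow_succ]
      refine (norm_add_le _ _).trans ?_
      linarith

noncomputable def rnd (c : ℝ) : V :=
  (⌈c * p.β ^ 2⌉ + ⌊-c⌋, ⌈c * (p.β - 1) - 1 / 2⌉ - ⌊-c⌋, -⌊-c⌋)

lemma rnd_zero : p.rnd 0 = 0 := by
  have : ⌈(-(1 / 2) : ℝ)⌉ = 0 := by rw [Int.ceil_eq_iff]; norm_num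
  simp only [rnd, zero_mul, neg_zero, zero_sub, this, Int.ceil_zero, Int.floor_zero]
  rfl

lemma rnd_spec (c : ℝ) : ∃ l1 l2 l3 : ℝ, 0 ≤ l1 ∧ l1 ≤ 1 ∧ -1 / 2 ≤ l2 ∧ l2 ≤ 1 / 2 ∧ -1 ≤ l3 ∧
    l3 ≤ 0 ∧ p.ψ (p.rnd c) = l1 + l2 * p.σ + l3 * (1 - p.σ - p.σ ^ 2) ∧
    p.φ (p.rnd c) = c * (3 * p.β ^ 2 - 1) + (l1 + l2 * p.β + l3 * (1 - p.β - p.β ^ 2)) := by
  refine ⟨⌈c * p.β ^ 2⌉ - c * p.β ^ 2, ⌈c * (p.β - 1) - 1 / 2⌉ - c * (p.β - 1), ⌊-c⌋ + c,
    ?_, ?_, ?_, ?_, ?_, ?_, ?_, ?_⟩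
  · linarith [Int.le_ceil (c * p.β ^ 2)]
  · linarith [Int.ceil_lt_add_one (c * p.β ^ 2)]
  · linarith [Int.le_ceil (c * (p.β - 1) - 1 / 2)]
  · linarith [Int.ceil_lt_add_one (c * (p.β - 1) - 1 / 2)]
  · linarith [Int.lt_floor_add_one (-c)]
  · linarith [Int.floor_le (-c)]
  · simp only [ψ, rnd]; push_cast
    linear_combination (c : ℂ) * p.hσ
  · simp only [φ, rnd]; push_cast; ring

def Sm (x : V) : Prop := |p.φ x| ≤ 8 * p.β ^ 44 ∧ ‖p.ψ x‖ ≤ 16

noncomputable def m (x y : V) : V := p.rnd ((p.φ x / p.β ^ 44 + p.φ y) / (3 * p.β ^ 2 - 1))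

noncomputable def q (x y : V) : V := p.m x y - y

lemma q_zero : p.q 0 0 = 0 := by simp [q, m, φ, rnd_zero]

lemma q_spec (x y : V) : p.Near (p.m x y) 0 ∧ ‖p.ψ (p.m x y)‖ ≤ 5 ∧
    ∃ L : ℝ, -1.24 ≤ L ∧ L ≤ 1.67 ∧ p.φ (p.q x y) = p.φ x / p.β ^ 44 + L := by
  have lo := p.lo
  have hi := p.hi
  have s1 : 1.75485 ≤ p.β ^ 2 := by nlinarith
  have s2 : p.β ^ 2 ≤ 1.75489 := by nlinarith
  obtain ⟨l1, l2, l3, a1, a2, a3, a4, a5, a6, e1, e2⟩ :=
    p.rnd_spec ((p.φ x / p.β ^ 44 + p.φ y) / (3 * p.β ^ 2 - 1))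
  refine ⟨⟨l1, l2, l3, a1, a2, a3, a4, a5, a6, by rw [m, e1]; simp⟩, ?_,
    l1 + l2 * p.β + l3 * (1 - p.β - p.β ^ 2), by nlinarith, by nlinarith, ?_⟩
  · rw [m, e1]
    have n0 := p.nm
    have n1 : ‖(l1 : ℂ)‖ ≤ 1 := by
      rw [Complex.norm_real, Real.norm_eq_abs, abs_le]; constructor <;> linarith
    have n2 : ‖(l2 : ℂ)‖ ≤ 1 / 2 := by
      rw [Complex.norm_real, Real.norm_eq_abs, abs_le]; constructor <;> linarith
    have n3 : ‖(l3 : ℂ)‖ ≤ 1 := by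
      rw [Complex.norm_real, Real.norm_eq_abs, abs_le]; constructor <;> linarith
    have n4 : ‖1 - p.σ - p.σ ^ 2‖ ≤ 3 := by
      refine (norm_sub_le _ _).trans ?_
      have := norm_sub_le 1 p.σ
      rw [norm_one] at this
      rw [norm_pow]
      nlinarith [norm_nonneg p.σ]
    refine (norm_add₃_le).trans ?_
    rw [norm_mul, norm_mul]
    have := mul_le_mul n2 n0 (norm_nonneg _) (by norm_num)
    have := mul_le_mul n3 n4 (norm_nonneg _) (by norm_num)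
    linarith
  · have : 3 * p.β ^ 2 - 1 ≠ 0 := by linarith
    rw [q, φ_sub, m, e2, div_mul_cancel₀ _ this]; ring

noncomputable def z (x y w : V) : V := y + p.q x y - T^[44] (p.q y w)

lemma z_spec (x y w : V) (hx : p.Sm x) (hw : p.Sm w) : p.RD 44 (p.φ (p.z x y w)) := by
  have lo := p.lo
  have hi := p.hi
  have s1 : 1.75485 ≤ p.β ^ 2 := by nlinarith
  have b1 : (10000 : ℝ) ≤ p.β ^ 44 := by
    rw [show p.β ^ 44 = (p.β ^ 2) ^ 22 by ring]
    exact le_trans (by norm_num) (pow_le_pow_left₀ (by norm_num) s1 22)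
  have b0 : 0 < p.β ^ 44 := by linarith
  obtain ⟨n1, -, L1, c1, c2, c3⟩ := p.q_spec x y
  obtain ⟨-, n2, L2, c4, c5, c6⟩ := p.q_spec y w
  obtain ⟨x1, x2⟩ := abs_le.1 hx.1
  have x3 : -8 ≤ p.φ x / p.β ^ 44 := by rw [le_div_iff₀ b0]; linarith
  have x4 : p.φ x / p.β ^ 44 ≤ 8 := by rw [div_le_iff₀ b0]; linarith
  have e1 : p.φ (p.z x y w) = p.φ (p.q x y) - p.β ^ 44 * L2 := by
    rw [z, φ_sub, φ_add, φ_Tk, c6, mul_add, mul_div_cancel₀ _ b0.ne']; ring
  have g : (0.8 : ℝ) ^ 26 ≤ 0.01 := by norm_num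
  refine p.up 26 _ ?_ ?_ ?_
  · rw [show 18 + 26 = 44 from rfl, le_div_iff₀ b0, e1, c3]
    have := mul_le_mul_of_nonneg_left c5 b0.le
    have := mul_le_mul_of_nonneg_left g b0.le
    linarith
  · rw [show 18 + 26 = 44 from rfl, div_le_iff₀ b0, e1, c3]
    have := mul_le_mul_of_nonneg_left c4 b0.le
    have := mul_le_mul_of_nonneg_left g b0.le
    linarith
  · obtain ⟨l1, l2, l3, a1, a2, a3, a4, a5, a6, hn⟩ := n1
    refine ⟨l1, l2, l3, a1, a2, a3, a4, a5, a6, ?_⟩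
    have e3 : p.ψ (p.z x y w) - (l1 + l2 * p.σ + l3 * (1 - p.σ - p.σ ^ 2)) =
        p.ψ (p.m x y) - (l1 + l2 * p.σ + l3 * (1 - p.σ - p.σ ^ 2))
          - p.σ ^ 44 * (p.ψ (p.m y w) - p.ψ w) := by
      simp only [z, q, ψ_sub, ψ_add, ψ_Tk]; ring
    have e4 : ‖p.σ‖ ^ 44 ≤ 0.0021 :=
      (pow_le_pow_left₀ (norm_nonneg _) p.nm 44).trans (by norm_num)
    have e5 : ‖p.ψ (p.m y w) - p.ψ w‖ ≤ 21 := (norm_sub_le _ _).trans (by linarith [hw.2])
    rw [e3]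
    refine (norm_sub_le _ _).trans ?_
    rw [norm_mul, norm_pow]
    have e6 : ‖p.σ‖ ^ 44 * ‖p.ψ (p.m y w) - p.ψ w‖ ≤ 0.0021 * 21 :=
      mul_le_mul e4 e5 (norm_nonneg _) (by norm_num)
    have e7 : (0.0021 : ℝ) * 21 ≤ 0.7 - 8 * 0.869 ^ 18 + 8 * 0.869 ^ (18 + 26) := by norm_num
    linarith

lemma mem_blk {t : ℝ} (h : p.RD 44 t) : (t : ℂ) ∈ Blk p.β {0, 1} 44 := by
  obtain ⟨a, ha, rfl⟩ := h
  refine ⟨fun i => a i, fun i => by simpa using ha i, ?_⟩
  rw [Finset.sum_range]; push_cast; rfl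

lemma of_blk {w : ℂ} (h : w ∈ Blk p.β {0, 1} 44) :
    ∃ x : V, (p.φ x : ℂ) = w ∧ |p.φ x| ≤ 4 * p.β ^ 44 ∧ ‖p.ψ x‖ ≤ 8 := by
  obtain ⟨a, ha, rfl⟩ := h
  obtain ⟨x, h1, h2, h3⟩ := p.lift (fun i => if h : i < 44 then a ⟨i, h⟩ else 0)
    (fun i => by
      split_ifs with h
      · simpa using ha ⟨i, h⟩
      · simp) 44
  refine ⟨x, ?_, ?_, ?_⟩
  · rw [h1, Finset.sum_range]; push_cast
    exact Finset.sum_congr rfl (fun i _ => by simp)
  · rwa [Even.pow_abs (by decide)] at h2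
  · have : (0 : ℝ) < 0.869 ^ 44 := by positivity
    linarith

lemma rep (w : ↥(Blk p.β {0, 1} 44 + Blk p.β {0, 1} 44)) :
    ∃ x : V, (p.φ x : ℂ) = w ∧ p.Sm x ∧ ((w : ℂ) = 0 → x = 0) := by
  by_cases h : (w : ℂ) = 0
  · refine ⟨0, by simp [φ, h], ⟨?_, by simp [ψ]⟩, fun _ => rfl⟩
    simp only [φ, Prod.fst_zero, Prod.snd_zero, Int.cast_zero, zero_mul, add_zero, abs_zero]
    positivity
  · obtain ⟨w1, m1, w2, m2, e⟩ := w.2
    obtain ⟨x1, a1, a2, a3⟩ := p.of_blk m1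
    obtain ⟨x2, b1, b2, b3⟩ := p.of_blk m2
    refine ⟨x1 + x2, ?_, ⟨?_, ?_⟩, fun h' => absurd h' h⟩
    · rw [φ_add]; push_cast; rw [a1, b1]; exact e
    · rw [φ_add]; exact (abs_add_le _ _).trans (by linarith)
    · rw [ψ_add]; exact (norm_add_le _ _).trans (by linarith)

end Par

lemma telescope (B : ℂ) (hB : B ≠ 0) (w Q : ℤ → ℂ) (hw : (Function.support w).Finite)
    (hQ : (Function.support Q).Finite) :
    (Function.support (fun j => w j + Q j - B * Q (j + 1))).Finite ∧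
      ∑ᶠ j, (w j + Q j - B * Q (j + 1)) * B ^ j = ∑ᶠ j, w j * B ^ j := by
  have hQ1 : (Function.support (fun j => Q (j + 1))).Finite :=
    hQ.preimage (f := fun j : ℤ => j + 1) (add_left_injective 1).injOn
  constructor
  · refine ((hw.union hQ).union hQ1).subset (fun j hj => ?_)
    by_contra hc
    simp only [Set.mem_union, Function.mem_support, not_or, not_not] at hc hj
    exact hj (by rw [hc.1.1, hc.1.2, hc.2]; simp)
  · have f1 : (Function.support (fun j => w j * B ^ j)).Finite :=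
      hw.subset (fun j hj => left_ne_zero_of_mul hj)
    have f2 : (Function.support (fun j => Q j * B ^ j)).Finite :=
      hQ.subset (fun j hj => left_ne_zero_of_mul hj)
    have f3 : (Function.support (fun j => Q (j + 1) * B ^ (j + 1))).Finite :=
      hQ1.subset (fun j hj => left_ne_zero_of_mul hj)
    have f4 : (Function.support (fun j => w j * B ^ j + Q j * B ^ j)).Finite :=
      (f1.union f2).subset (Function.support_add _ _)
    have e : ∀ j : ℤ, (w j + Q j - B * Q (j + 1)) * B ^ j =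
        (w j * B ^ j + Q j * B ^ j) - Q (j + 1) * B ^ (j + 1) := by
      intro j; rw [zpow_add_one₀ hB]; ring
    have e2 : ∑ᶠ j : ℤ, Q (j + 1) * B ^ (j + 1) = ∑ᶠ j : ℤ, Q j * B ^ j :=
      finsum_comp_equiv (f := fun j : ℤ => Q j * B ^ j) (Equiv.addRight 1)
    simp only [e]
    rw [finsum_sub_distrib f4 f3, finsum_add_distrib f1 f2, e2]
    ring

theorem result : ∃ β : ℂ, 1 < ‖β‖ ∧ ∃ A : Finset ℤ, (A = {0, 1} ∨ A = {-1, 0}) ∧
    ∃ k : ℕ, 1 ≤ k ∧ BlockParallel β A k := by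
  obtain ⟨p⟩ := exPar
  refine ⟨p.β, ?_, {0, 1}, Or.inl rfl, 44, by norm_num, ?_⟩
  · have := p.hi
    rw [Complex.norm_real, Real.norm_eq_abs, abs_of_neg (by linarith)]; linarith
  choose R hR1 hR2 hR3 using p.rep
  refine ⟨fun u j => ⟨p.φ (p.z (R (u (j - 1))) (R (u j)) (R (u (j + 1)))),
    p.mem_blk (p.z_spec _ _ _ (hR2 _) (hR2 _))⟩, ?_, 1, 1,
    fun s => ⟨p.φ (p.z (R (s 2)) (R (s 1)) (R (s 0))),
      p.mem_blk (p.z_spec _ _ _ (hR2 _) (hR2 _))⟩, ?_⟩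
  · intro u hu
    have hB : (p.β : ℂ) ^ 44 ≠ 0 := pow_ne_zero _ (by exact_mod_cast p.β_ne)
    have hu1 : (Function.support (fun j => (u (j - 1) : ℂ))).Finite :=
      hu.preimage (f := fun j : ℤ => j - 1) (sub_left_injective).injOn
    have hQ : (Function.support (fun j => (p.φ (p.q (R (u (j - 1))) (R (u j))) : ℂ))).Finite := by
      refine (hu.union hu1).subset (fun j hj => ?_)
      by_contra hc
      simp only [Set.mem_union, Function.mem_support, not_or, not_not] at hc hj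
      apply hj
      rw [hR3 _ hc.1, hR3 _ hc.2, p.q_zero]
      simp [Par.φ]
    have key := telescope _ hB _ _ hu hQ
    have e : ∀ j : ℤ, (p.φ (p.z (R (u (j - 1))) (R (u j)) (R (u (j + 1)))) : ℂ) =
        u j + p.φ (p.q (R (u (j - 1))) (R (u j)))
          - (p.β : ℂ) ^ 44 * p.φ (p.q (R (u (j + 1 - 1))) (R (u (j + 1)))) := by
      intro j
      rw [Par.z, p.φ_sub, p.φ_add, p.φ_Tk, add_sub_cancel_right]
      push_cast
      rw [hR1]
    simp only [e]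
    exact key
  · intro u j
    apply Subtype.ext
    have e2 : j + ((1 : ℕ) : ℤ) - (((2 : Fin (1 + 1 + 1)) : ℕ) : ℤ) = j - 1 := by
      simp; ring
    have e1 : j + ((1 : ℕ) : ℤ) - (((1 : Fin (1 + 1 + 1)) : ℕ) : ℤ) = j := by simp
    have e0 : j + ((1 : ℕ) : ℤ) - (((0 : Fin (1 + 1 + 1)) : ℕ) : ℤ) = j + 1 := by simp
    simp only [e0, e1, e2]

end Pool.Agent.Results.MP_8e4c55_nt.Binary
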